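import Pool.Agent.Helper26.AF.Goals

/-! Project AF (MP_af6c86_pr), packet DEL: abstract edge deletion. -/

set_option autoImplicit false

namespace Pool.Agent.Helper32.AF

open Equiv Equiv.Perm
open Pool.Agent.Helper26.AF

/-- `π` with `a` taken out of its cycle -/
def skip {D : Type} [DecidableEq D] (π : Perm D) (a : D) : Perm D := swap a (π a) * π

section

variable {D : Type} [Fintype D] [DecidableEq D]

omit [Fintype D] in
theorem skip_self (π : Perm D) (a : D) : skip π a a = a := by
  rw [skip, mul_apply, swap_apply_right]

omit [Fintype D] in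
theorem skip_of_ne (π : Perm D) (a x : D) (hx : x ≠ a) (h : π x ≠ a) : skip π a x = π x := by
  rw [skip, mul_apply]
  exact swap_apply_of_ne_of_ne h fun h' => hx (π.injective h')

omit [Fintype D] in
theorem skip_of_eq (π : Perm D) (a x : D) (h : π x = a) : skip π a x = π a := by
  rw [skip, mul_apply, h, swap_apply_left]

omit [Fintype D] in
theorem skip_mul (π : Perm D) (a : D) : skip π a = π * swap (π⁻¹ a) a := by
  unfold skip
  ext x
  rw [mul_apply, mul_apply]
  by_cases h1 : x = a
  · subst h1
    simp
  · by_cases h2 : π x = a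
    · have h3 : x = π⁻¹ a := by
        rw [← h2]
        simp
      rw [h2, swap_apply_left, ← h3, swap_apply_left]
    · have h3 : x ≠ π⁻¹ a := by
        intro h
        apply h2
        rw [h]
        simp
      rw [swap_apply_of_ne_of_ne h2 fun h' => h1 (π.injective h'), swap_apply_of_ne_of_ne h3 h1]

theorem skip_pow (π : Perm D) (a : D) (x : D) (hx : x ≠ a) (n : ℕ) :
    ((skip π a) ^ n) x ≠ a ∧ π.SameCycle x (((skip π a) ^ n) x) := by
  induction n with
  | zero => exact ⟨hx, SameCycle.rfl⟩
  | succ n ih =>
    rw [pow_succ', mul_apply]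
    refine ⟨fun h => ih.1 ?_, ?_⟩
    · apply (skip π a).injective
      rw [h, skip_self]
    · by_cases h : π (((skip π a) ^ n) x) = a
      · rw [skip_of_eq π a _ h, ← h, sameCycle_apply_right, sameCycle_apply_right]
        exact ih.2
      · rw [skip_of_ne π a _ ih.1 h, sameCycle_apply_right]
        exact ih.2

theorem skip_back (π : Perm D) (a : D) (y : D) (hy : y ≠ a) (n : ℕ) :
    ∀ x, x ≠ a → (π ^ n) x = y → (skip π a).SameCycle x y := by
  induction n using Nat.strong_induction_on with
  | _ n ih =>
    intro x hx hxy
    rcases n with _ | n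
    · rw [pow_zero, one_apply] at hxy
      rw [hxy]
    · rw [pow_succ, mul_apply] at hxy
      by_cases h : π x = a
      · rcases n with _ | n
        · rw [pow_zero, one_apply] at hxy
          exact absurd (hxy.symm.trans h) hy
        · rw [pow_succ, mul_apply, h] at hxy
          have h2 : π a ≠ a := by
            intro h3
            apply hx
            apply π.injective
            rw [h, h3]
          have h4 := ih n (by omega) (π a) h2 hxy
          rw [← skip_of_eq π a x h, sameCycle_apply_left] at h4
          exact h4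
      · have h4 := ih n (by omega) (π x) h hxy
        rw [← skip_of_ne π a x hx h, sameCycle_apply_left] at h4
        exact h4

theorem skip_sameCycle (π : Perm D) (a x y : D) (hx : x ≠ a) (hy : y ≠ a) :
    (skip π a).SameCycle x y ↔ π.SameCycle x y := by
  constructor
  · intro h
    obtain ⟨n, hn⟩ := h.exists_nat_pow_eq
    rw [← hn]
    exact (skip_pow π a x hx n).2
  · intro h
    obtain ⟨n, hn⟩ := h.exists_nat_pow_eq
    exact skip_back π a y hy n x hx hn

theorem orb_skip (hSWAP : StmtSWAP) (π : Perm D) (a : D) :
    orb (skip π a) = orb π + if π a = a then 0 else 1 := by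
  split_ifs with h
  · have : skip π a = π := by
      rw [skip, h, swap_self]
      rfl
    rw [this, add_zero]
  · rw [skip_mul]
    have h1 : π⁻¹ a ≠ a := by
      intro h2
      apply h
      conv_lhs => rw [← h2]
      simp
    refine (hSWAP D π (π⁻¹ a) a h1).1 ?_
    have h3 : π (π⁻¹ a) = a := by simp
    rw [← sameCycle_apply_left, h3]

/-- restriction to the complement of two fixed points -/
theorem orb_res (π : Perm D) (a b : D) (hab : a ≠ b) (ha : π a = a) (hb : π b = b)
    (π' : Perm {x : D // x ≠ a ∧ x ≠ b}) (h : ∀ x, (π' x).1 = π x.1) :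
    orb π' + 2 = orb π := by
  have hpow : ∀ (n : ℕ) (x : {x : D // x ≠ a ∧ x ≠ b}), ((π' ^ n) x).1 = (π ^ n) x.1 := by
    intro n x
    induction n with
    | zero => rfl
    | succ n ih => rw [pow_succ', mul_apply, h, ih, pow_succ', mul_apply]
  have hsc : ∀ x y, π'.SameCycle x y ↔ π.SameCycle x.1 y.1 := by
    intro x y
    constructor
    · intro hxy
      obtain ⟨n, hn⟩ := hxy.exists_nat_pow_eq
      refine ⟨n, ?_⟩
      rw [zpow_natCast, ← hpow, hn]
    · intro hxy
      obtain ⟨n, hn⟩ := hxy.exists_nat_pow_eq
      refine ⟨n, ?_⟩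
      rw [zpow_natCast]
      exact Subtype.ext ((hpow n x).trans hn)
  let f : Quotient (SameCycle.setoid π') ⊕ Bool → Quotient (SameCycle.setoid π) := fun s =>
    match s with
    | Sum.inl q => Quotient.map' (fun x => x.1) (fun x y hxy => (hsc x y).1 hxy) q
    | Sum.inr c => Quotient.mk'' (if c then a else b)
  have hf : Function.Bijective f := by
    constructor
    · rintro (q | c) (q' | c') hqq
      · induction q using Quotient.inductionOn' with
        | _ x =>
          induction q' using Quotient.inductionOn' with
          | _ y =>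
            have h1 : π.SameCycle x.1 y.1 := Quotient.eq''.1 hqq
            congr 1
            exact Quotient.sound' ((hsc x y).2 h1)
      · induction q using Quotient.inductionOn' with
        | _ x =>
          exfalso
          have h1 : π.SameCycle x.1 (if c' then a else b) := Quotient.eq''.1 hqq
          have h2 : x.1 = if c' then a else b := h1.eq_of_right (by
            split_ifs
            · exact ha
            · exact hb)
          split_ifs at h2
          · exact x.2.1 h2
          · exact x.2.2 h2
      · induction q' using Quotient.inductionOn' with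
        | _ x =>
          exfalso
          have h1 : π.SameCycle (if c then a else b) x.1 := Quotient.eq''.1 hqq
          have h2 : (if c then a else b) = x.1 := h1.eq_of_left (by
            split_ifs
            · exact ha
            · exact hb)
          split_ifs at h2
          · exact x.2.1 h2.symm
          · exact x.2.2 h2.symm
      · have h1 : π.SameCycle (if c then a else b) (if c' then a else b) := Quotient.eq''.1 hqq
        have h2 := h1.eq_of_left (by
          split_ifs
          · exact ha
          · exact hb)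
        congr 1
        cases c <;> cases c'
        · rfl
        · exact absurd h2.symm hab
        · exact absurd h2 hab
        · rfl
    · intro q
      induction q using Quotient.inductionOn' with
      | _ x =>
        by_cases hxa : x = a
        · exact ⟨Sum.inr true, by rw [hxa]; rfl⟩
        · by_cases hxb : x = b
          · exact ⟨Sum.inr false, by rw [hxb]; rfl⟩
          · exact ⟨Sum.inl (Quotient.mk'' ⟨x, hxa, hxb⟩), rfl⟩
  have h1 := Nat.card_eq_of_bijective f hf
  unfold orb
  rw [← h1, Nat.card_sum]
  simp

end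

theorem goalDEL (hSWAP : Pool.Agent.Helper26.AF.StmtSWAP) : Pool.Agent.Helper26.AF.StmtDEL := by
  intro D _ _ σ τ hτ d h1 h2
  have hd : d ≠ τ d := fun h => (hτ d).2 h.symm
  set d' := τ d with hd'
  let σ₁ := skip σ d
  let σ₂ := skip σ₁ d'
  have e1 : σ₁ d = d := skip_self σ d
  have e2 : σ₂ d' = d' := skip_self σ₁ d'
  have e3 : σ₂ d = d := by
    change skip σ₁ d' d = d
    rw [skip_of_ne σ₁ d' d hd (by rw [e1]; exact hd), e1]
  have hp : ∀ x : D, (σ₂ x ≠ d ∧ σ₂ x ≠ d') ↔ (x ≠ d ∧ x ≠ d') := by
    intro x
    constructor
    · rintro ⟨ha, hb⟩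
      exact ⟨fun h => ha (by rw [h, e3]), fun h => hb (by rw [h, e2])⟩
    · rintro ⟨ha, hb⟩
      exact ⟨fun h => ha (σ₂.injective (by rw [h, e3])), fun h => hb (σ₂.injective (by rw [h, e2]))⟩
  refine ⟨σ₂.subtypePerm hp, fun x y => ?_, fun τ' hτ' => ?_⟩
  · rw [sameCycle_subtypePerm, skip_sameCycle σ₁ d' _ _ x.2.2 y.2.2,
      skip_sameCycle σ d _ _ x.2.1 y.2.1]
  · let τ₁ := τ * swap d d'
    let ψ := σ * τ₁
    have t1 : τ₁ d = d := by
      change τ (swap d d' d) = d
      rw [swap_apply_left]
      exact (hτ d).1
    have t2 : τ₁ d' = d' := by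
      change τ (swap d d' d') = d'
      rw [swap_apply_right]
    have p1 : ψ d = σ d := by
      change σ (τ₁ d) = σ d
      rw [t1]
    have p2 : ψ d' = σ d' := by
      change σ (τ₁ d') = σ d'
      rw [t2]
    have q1 : σ₁ * τ₁ = skip ψ d := by
      change swap d (σ d) * σ * τ₁ = swap d (ψ d) * (σ * τ₁)
      rw [p1, mul_assoc]
    have q3 : skip ψ d d' = σ₁ d' := by
      rw [← q1, mul_apply, t2]
    have q2 : σ₂ * τ₁ = skip (skip ψ d) d' := by
      change swap d' (σ₁ d') * σ₁ * τ₁ = swap d' (skip ψ d d') * skip ψ d
      rw [q3, ← q1, mul_assoc]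
    have q4 : σ₁ d' = σ d' := skip_of_ne σ d d' (Ne.symm hd) h2
    have r1 : orb (σ₂ * τ₁) = orb ψ + (if σ d = d then 0 else 1) + (if σ d' = d' then 0 else 1) := by
      rw [q2, orb_skip hSWAP, orb_skip hSWAP, p1, q3, q4]
    have r2 : orb (σ₂.subtypePerm hp * τ') + 2 = orb (σ₂ * τ₁) := by
      refine orb_res (σ₂ * τ₁) d d' hd ?_ ?_ _ ?_
      · rw [mul_apply, t1, e3]
      · rw [mul_apply, t2, e2]
      · intro x
        rw [mul_apply, mul_apply, subtypePerm_apply]
        change σ₂ (τ' x).1 = σ₂ (τ₁ x.1)
        rw [hτ' x]
        change σ₂ (τ x.1) = σ₂ (τ (swap d d' x.1))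
        rw [swap_apply_of_ne_of_ne x.2.1 x.2.2]
    have r3 : orb ψ = orb (σ * τ * swap d d') := by
      change orb (σ * (τ * swap d d')) = _
      rw [mul_assoc]
    rw [← r3]
    rw [r1] at r2
    split_ifs at r2 ⊢ <;> omega

end Pool.Agent.Helper32.AF
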