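import Pool.Agent.Helper26.AF.Goals3

/-! Project AF (MP_af6c86_pr), packet KSM. -/

set_option autoImplicit false

namespace Pool.Agent.Helper32.AF

open Finset
open Pool.Agent.Helper26.AF

/-- weighted AM-GM -/
theorem ksm_amgm (s k n : ℝ) (hs : 0 < s) (hk : 0 < k) (hn : 0 < n) :
    2 / 3 * (s ^ ((3 : ℝ) / 2) / Real.sqrt n) ≤ s ^ 2 / (2 * k) + k ^ 3 / (6 * n ^ 2) := by
  have e : s ^ ((3 : ℝ) / 2) = s * Real.sqrt s := by
    rw [show (3 : ℝ) / 2 = 1 + 1 / 2 by norm_num, Real.rpow_add hs, Real.rpow_one,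
      Real.sqrt_eq_rpow]
  rw [e]
  obtain ⟨a, ha, ha2, ha4⟩ : ∃ a : ℝ, 0 < a ∧ a ^ 2 = Real.sqrt s ∧ a ^ 4 = s := by
    refine ⟨Real.sqrt (Real.sqrt s), Real.sqrt_pos.2 (Real.sqrt_pos.2 hs),
      Real.sq_sqrt (Real.sqrt_nonneg _), ?_⟩
    rw [show 4 = 2 * 2 by norm_num, pow_mul, Real.sq_sqrt (Real.sqrt_nonneg _),
      Real.sq_sqrt hs.le]
  obtain ⟨b, hb, hb4⟩ : ∃ b : ℝ, 0 < b ∧ b ^ 4 = k := by
    refine ⟨Real.sqrt (Real.sqrt k), Real.sqrt_pos.2 (Real.sqrt_pos.2 hk), ?_⟩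
    rw [show 4 = 2 * 2 by norm_num, pow_mul, Real.sq_sqrt (Real.sqrt_nonneg _),
      Real.sq_sqrt hk.le]
  obtain ⟨c, hc, hc2, hc4⟩ : ∃ a : ℝ, 0 < a ∧ a ^ 2 = Real.sqrt n ∧ a ^ 4 = n := by
    refine ⟨Real.sqrt (Real.sqrt n), Real.sqrt_pos.2 (Real.sqrt_pos.2 hn),
      Real.sq_sqrt (Real.sqrt_nonneg _), ?_⟩
    rw [show 4 = 2 * 2 by norm_num, pow_mul, Real.sq_sqrt (Real.sqrt_nonneg _),
      Real.sq_sqrt hn.le]
  rw [← ha2, ← hc2, ← ha4, ← hb4, ← hc4]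
  have h1 : (a ^ 4) ^ 2 / (2 * b ^ 4) + (b ^ 4) ^ 3 / (6 * (c ^ 4) ^ 2) -
      2 / 3 * (a ^ 4 * a ^ 2 / c ^ 2) =
      (a ^ 2 * c ^ 2 - b ^ 4) ^ 2 * (3 * (a ^ 2 * c ^ 2) ^ 2 + 2 * (a ^ 2 * c ^ 2) * b ^ 4 +
        (b ^ 4) ^ 2) / (6 * b ^ 4 * c ^ 8) := by
    field_simp
    ring
  have h2 : 0 ≤ (a ^ 2 * c ^ 2 - b ^ 4) ^ 2 * (3 * (a ^ 2 * c ^ 2) ^ 2 +
      2 * (a ^ 2 * c ^ 2) * b ^ 4 + (b ^ 4) ^ 2) / (6 * b ^ 4 * c ^ 8) := by positivity
  linarith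

/-- the tail of the series `∑ k^(-3/2)` -/
theorem ksm_tail (m : ℕ) (hm : 1 ≤ m) (N : ℕ) :
    ∑ k ∈ Ioc m N, 1 / ((k : ℝ) * Real.sqrt k) ≤ 2 / Real.sqrt m := by
  rcases Nat.lt_or_ge N m with h | h
  · rw [Ioc_eq_empty_of_le (by omega), sum_empty]
    positivity
  · have h1 : ∑ k ∈ Ioc m N, 1 / ((k : ℝ) * Real.sqrt k) ≤
        2 / Real.sqrt m - 2 / Real.sqrt N := by
      induction N, h using Nat.le_induction with
      | base => simp
      | succ N hN ih =>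
        rw [sum_Ioc_succ_top hN]
        have hN0 : (0 : ℝ) < N := by exact_mod_cast (by omega : 0 < N)
        have e2 : (Real.sqrt ((N + 1 : ℕ) : ℝ)) ^ 2 = ((N + 1 : ℕ) : ℝ) :=
          Real.sq_sqrt (by positivity)
        have e1 : (Real.sqrt (N : ℝ)) ^ 2 = N := Real.sq_sqrt hN0.le
        have p1 : 0 < Real.sqrt (N : ℝ) := Real.sqrt_pos.2 hN0
        have p2 : 0 < Real.sqrt ((N + 1 : ℕ) : ℝ) := Real.sqrt_pos.2 (by positivity)
        have hle : Real.sqrt (N : ℝ) ≤ Real.sqrt ((N + 1 : ℕ) : ℝ) :=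
          Real.sqrt_le_sqrt (by push_cast; linarith)
        have key : 1 / (((N + 1 : ℕ) : ℝ) * Real.sqrt ((N + 1 : ℕ) : ℝ)) ≤
            2 / Real.sqrt (N : ℝ) - 2 / Real.sqrt ((N + 1 : ℕ) : ℝ) := by
          have e3 : (Real.sqrt ((N + 1 : ℕ) : ℝ)) ^ 2 = (Real.sqrt (N : ℝ)) ^ 2 + 1 := by
            rw [e1, e2]
            push_cast
            ring
          set a := Real.sqrt (N : ℝ)
          set b := Real.sqrt ((N + 1 : ℕ) : ℝ)
          rw [← e2]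
          have e4 : (b - a) * (b + a) = 1 := by linear_combination e3
          have h5 : 2 / a - 2 / b = 2 * (b - a) / (a * b) := by
            field_simp
          rw [h5, div_le_div_iff₀ (by positivity) (by positivity)]
          have h6 : 1 ≤ (b - a) * (2 * b) := by
            rw [← e4]
            exact mul_le_mul_of_nonneg_left (by linarith) (by linarith)
          have h7 : a * b ≤ b * b := mul_le_mul_of_nonneg_right hle p2.le
          calc 1 * (a * b) ≤ b * b := by linarith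
            _ = 1 * (b * b) := (one_mul _).symm
            _ ≤ ((b - a) * (2 * b)) * (b * b) := mul_le_mul_of_nonneg_right h6 (by positivity)
            _ = 2 * (b - a) * (b ^ 2 * b) := by ring
        linarith
    have h2 : 0 ≤ 2 / Real.sqrt N := by positivity
    linarith

theorem ksm_exp (z : ℝ) (hz : 0 < z) : Real.exp (-z) ≤ 2 / z ^ 2 := by
  rw [Real.exp_neg, inv_eq_one_div, div_le_div_iff₀ (Real.exp_pos _) (by positivity)]
  have := Real.quadratic_le_exp_of_nonneg hz.le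
  nlinarith

theorem ksm_sum (δ : ℝ) (hδ : 0 < δ) (n s : ℕ) (hs : 1 ≤ s) :
    ∑ k ∈ Icc s n, (s : ℝ) / ((k : ℝ) * Real.sqrt k) * Real.exp (-(δ * ((s : ℝ) ^ 2 / (2 * k)))) ≤
      8 / δ ^ 2 + 2 := by
  have hs0 : (0 : ℝ) < s := by exact_mod_cast hs
  rw [← sum_filter_add_sum_filter_not (Icc s n) (fun k => k ≤ s ^ 2)]
  refine add_le_add ?_ ?_
  · have h1 : ∀ k ∈ (Icc s n).filter (fun k => k ≤ s ^ 2),
        (s : ℝ) / ((k : ℝ) * Real.sqrt k) * Real.exp (-(δ * ((s : ℝ) ^ 2 / (2 * k)))) ≤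
        8 / δ ^ 2 / (s : ℝ) ^ 2 := by
      intro k hk
      obtain ⟨hk1, hk2⟩ := mem_filter.1 hk
      rw [mem_Icc] at hk1
      have hk0 : (0 : ℝ) < k := by exact_mod_cast (by omega : 0 < k)
      have hsk : Real.sqrt k ≤ s := by
        rw [Real.sqrt_le_left hs0.le]
        exact_mod_cast hk2
      have hsq : 0 < Real.sqrt k := Real.sqrt_pos.2 hk0
      have e1 : Real.sqrt k ^ 2 = k := Real.sq_sqrt hk0.le
      have h2 := ksm_exp (δ * ((s : ℝ) ^ 2 / (2 * k))) (by positivity)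
      have h3 : (s : ℝ) / ((k : ℝ) * Real.sqrt k) * (2 / (δ * ((s : ℝ) ^ 2 / (2 * k))) ^ 2) =
          8 / δ ^ 2 / (s : ℝ) ^ 3 * Real.sqrt k := by
        have : (k : ℝ) / Real.sqrt k = Real.sqrt k := by
          rw [div_eq_iff hsq.ne', ← sq, e1]
        rw [← this]
        field_simp
        rw [e1]
        ring
      calc _ ≤ (s : ℝ) / ((k : ℝ) * Real.sqrt k) * (2 / (δ * ((s : ℝ) ^ 2 / (2 * k))) ^ 2) :=
            mul_le_mul_of_nonneg_left h2 (by positivity)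
        _ = 8 / δ ^ 2 / (s : ℝ) ^ 3 * Real.sqrt k := h3
        _ ≤ 8 / δ ^ 2 / (s : ℝ) ^ 3 * s := mul_le_mul_of_nonneg_left hsk (by positivity)
        _ = 8 / δ ^ 2 / (s : ℝ) ^ 2 := by
            field_simp
    refine (sum_le_sum h1).trans ?_
    rw [sum_const, nsmul_eq_mul]
    have h2 : #((Icc s n).filter (fun k => k ≤ s ^ 2)) ≤ s ^ 2 := by
      have : (Icc s n).filter (fun k => k ≤ s ^ 2) ⊆ Icc 1 (s ^ 2) := by
        intro k hk
        obtain ⟨hk1, hk2⟩ := mem_filter.1 hk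
        rw [mem_Icc] at hk1 ⊢
        omega
      refine (card_le_card this).trans ?_
      simp
    have h3 : (#((Icc s n).filter (fun k => k ≤ s ^ 2)) : ℝ) ≤ (s : ℝ) ^ 2 := by exact_mod_cast h2
    calc _ ≤ (s : ℝ) ^ 2 * (8 / δ ^ 2 / (s : ℝ) ^ 2) :=
          mul_le_mul_of_nonneg_right h3 (by positivity)
      _ = 8 / δ ^ 2 := by field_simp
  · have h1 : ∀ k ∈ (Icc s n).filter (fun k => ¬ k ≤ s ^ 2),
        (s : ℝ) / ((k : ℝ) * Real.sqrt k) * Real.exp (-(δ * ((s : ℝ) ^ 2 / (2 * k)))) ≤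
        s * (1 / ((k : ℝ) * Real.sqrt k)) := by
      intro k _
      have h2 : Real.exp (-(δ * ((s : ℝ) ^ 2 / (2 * k)))) ≤ 1 := by
        rw [Real.exp_le_one_iff]
        have : 0 ≤ δ * ((s : ℝ) ^ 2 / (2 * k)) := by positivity
        linarith
      calc _ ≤ (s : ℝ) / ((k : ℝ) * Real.sqrt k) * 1 :=
            mul_le_mul_of_nonneg_left h2 (by positivity)
        _ = s * (1 / ((k : ℝ) * Real.sqrt k)) := by ring
    refine (sum_le_sum h1).trans ?_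
    rw [← mul_sum]
    have h2 : ∑ k ∈ (Icc s n).filter (fun k => ¬ k ≤ s ^ 2), 1 / ((k : ℝ) * Real.sqrt k) ≤
        ∑ k ∈ Ioc (s ^ 2) n, 1 / ((k : ℝ) * Real.sqrt k) := by
      refine sum_le_sum_of_subset_of_nonneg ?_ fun k _ _ => by positivity
      intro k hk
      obtain ⟨hk1, hk2⟩ := mem_filter.1 hk
      rw [mem_Icc] at hk1
      rw [mem_Ioc]
      omega
    have h3 := ksm_tail (s ^ 2) (Nat.one_le_pow _ _ (by omega)) n
    have h4 : Real.sqrt ((s ^ 2 : ℕ) : ℝ) = s := by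
      push_cast
      exact Real.sqrt_sq hs0.le
    rw [h4] at h3
    calc _ ≤ (s : ℝ) * (2 / s) := mul_le_mul_of_nonneg_left (h2.trans h3) hs0.le
      _ = 2 := by field_simp

theorem goalKSM (hPOI : Pool.Agent.Helper26.AF.StmtPOI) : Pool.Agent.Helper26.AF.StmtKSM := by
  intro δ hδ hδ2
  obtain ⟨C, hC, hP⟩ := hPOI δ hδ (by linarith)
  refine ⟨C * (8 / δ ^ 2 + 2), by positivity, fun n s hs hsn => ?_⟩
  have hs0 : (0 : ℝ) < s := by exact_mod_cast hs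
  have hn0 : (0 : ℝ) < n := by exact_mod_cast (by omega : 0 < n)
  set E := Real.exp (-(1 - 2 * δ) * (2 / 3) * ((s : ℝ) ^ ((3 : ℝ) / 2) / Real.sqrt n)) with hE
  have h1 : ∀ k ∈ Icc s n,
      ((s : ℝ) * (k : ℝ) ^ (k - s) / ((k : ℝ) * ((k - s).factorial : ℝ))) *
        Real.exp (-(k : ℝ) - (1 - δ) * (k : ℝ) ^ 3 / (6 * (n : ℝ) ^ 2)) ≤
      C * E * ((s : ℝ) / ((k : ℝ) * Real.sqrt k) *
        Real.exp (-(δ * ((s : ℝ) ^ 2 / (2 * k))))) := by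
    intro k hk
    rw [mem_Icc] at hk
    have hk0 : (0 : ℝ) < k := by exact_mod_cast (by omega : 0 < k)
    have hf : (0 : ℝ) < ((k - s).factorial : ℝ) := by exact_mod_cast Nat.factorial_pos _
    have hsq : 0 < Real.sqrt k := Real.sqrt_pos.2 hk0
    have h2 := hP s k hs hk.1
    have h3 := ksm_amgm (s : ℝ) k n hs0 hk0 hn0
    have e1 : ((s : ℝ) * (k : ℝ) ^ (k - s) / ((k : ℝ) * ((k - s).factorial : ℝ))) *
        Real.exp (-(k : ℝ) - (1 - δ) * (k : ℝ) ^ 3 / (6 * (n : ℝ) ^ 2)) =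
        (s : ℝ) / k * Real.exp (-((1 - δ) * ((k : ℝ) ^ 3 / (6 * (n : ℝ) ^ 2)))) *
        ((k : ℝ) ^ (k - s) * Real.exp (-(k : ℝ)) / ((k - s).factorial : ℝ)) := by
      rw [show -(k : ℝ) - (1 - δ) * (k : ℝ) ^ 3 / (6 * (n : ℝ) ^ 2) =
        -(k : ℝ) + -((1 - δ) * ((k : ℝ) ^ 3 / (6 * (n : ℝ) ^ 2))) by ring, Real.exp_add]
      field_simp
    rw [e1]
    refine (mul_le_mul_of_nonneg_left h2 (by positivity)).trans ?_
    have e2 : (s : ℝ) / k * Real.exp (-((1 - δ) * ((k : ℝ) ^ 3 / (6 * (n : ℝ) ^ 2)))) *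
        (C * Real.exp (-(1 - δ) * (s : ℝ) ^ 2 / (2 * k)) / Real.sqrt k) =
        C * ((s : ℝ) / ((k : ℝ) * Real.sqrt k)) *
          Real.exp (-(1 - δ) * (s : ℝ) ^ 2 / (2 * k) +
            -((1 - δ) * ((k : ℝ) ^ 3 / (6 * (n : ℝ) ^ 2)))) := by
      rw [Real.exp_add]
      field_simp
    have e3 : C * E * ((s : ℝ) / ((k : ℝ) * Real.sqrt k) *
        Real.exp (-(δ * ((s : ℝ) ^ 2 / (2 * k))))) = C * ((s : ℝ) / ((k : ℝ) * Real.sqrt k)) *
        Real.exp (-(1 - 2 * δ) * (2 / 3) * ((s : ℝ) ^ ((3 : ℝ) / 2) / Real.sqrt n) +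
          -(δ * ((s : ℝ) ^ 2 / (2 * k)))) := by
      rw [Real.exp_add, ← hE]
      ring
    rw [e2, e3]
    refine mul_le_mul_of_nonneg_left (Real.exp_le_exp.2 ?_) (by positivity)
    have hQ : 0 ≤ (k : ℝ) ^ 3 / (6 * (n : ℝ) ^ 2) := by positivity
    have e4 : -(1 - δ) * (s : ℝ) ^ 2 / (2 * k) = -((1 - δ) * ((s : ℝ) ^ 2 / (2 * k))) := by ring
    rw [e4]
    nlinarith [mul_nonneg hδ.le hQ, mul_le_mul_of_nonneg_left h3 (show 0 ≤ 1 - 2 * δ by linarith)]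
  refine (sum_le_sum h1).trans ?_
  rw [← mul_sum]
  calc _ ≤ C * E * (8 / δ ^ 2 + 2) :=
        mul_le_mul_of_nonneg_left (ksm_sum δ hδ n s hs) (by positivity)
    _ = C * (8 / δ ^ 2 + 2) * E := by ring

end Pool.Agent.Helper32.AF
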